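import Pool.Agent.U610.PC.Stm
import Pool.Agent.TH783.CE.Slice

/-!
# Project PC, package APT: thin sets and arithmetic progressions
-/

set_option autoImplicit false

open Polynomial Pool.Agent.TH783.CE

namespace Pool.Agent.U55.PC

lemma comp_comp (M a : ℚ) (hM : M ≠ 0) :
    (compRingHom (C (-(a / M)) + C (1 / M) * X : ℚ[X])).comp (compRingHom (C a + C M * X : ℚ[X])) =
      RingHom.id ℚ[X] := by
  apply Polynomial.ringHom_ext
  · intro c
    simp [coe_compRingHom]
  · simp only [RingHom.comp_apply, coe_compRingHom_apply, X_comp, add_comp, C_comp, mul_comp,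
      RingHom.id_apply]
    rw [mul_add, ← mul_assoc, ← C_mul, ← C_mul, mul_neg, mul_div_cancel₀ _ hM, mul_one_div_cancel hM,
      C_neg, C_1, one_mul]
    ring

lemma evalEval_comp (M a : ℚ) (G : ℚ[X][X]) (t x : ℚ) :
    (G.map (compRingHom (C a + C M * X : ℚ[X]))).evalEval t x = G.evalEval (a + M * t) x := by
  unfold evalEval
  have h1 : (C x : ℚ[X]) = compRingHom (C a + C M * X : ℚ[X]) (C x) := by
    simp
  rw [eval_map]
  conv_lhs => rw [h1]
  rw [eval₂_hom, coe_compRingHom_apply, eval_comp]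
  simp

lemma thin_ap {D : Set ℚ} (h : Thin D) (M a : ℚ) (hM : M ≠ 0) : Thin {t : ℚ | a + M * t ∈ D} := by
  obtain ⟨E, hE, G, hG, hG', hD⟩ := h
  refine ⟨{t : ℚ | a + M * t ∈ E}, ?_, G.map (compRingHom (C a + C M * X)), hG.map _, ?_, ?_⟩
  · refine hE.preimage ?_
    intro s _ t _ hst
    have : M * s = M * t := by simpa using hst
    exact mul_left_cancel₀ hM this
  · intro g hg
    apply hG' (compRingHom (C (-(a / M)) + C (1 / M) * X) g)
    have h2 := congrArg (compRingHom (C (-(a / M)) + C (1 / M) * X : ℚ[X])) hg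
    rw [map_zero, ← eval₂_hom, ← eval_map, Polynomial.map_map, comp_comp M a hM, Polynomial.map_id] at h2
    exact h2
  · intro t ht
    rcases hD _ ht with h1 | ⟨x, hx⟩
    · exact Or.inl h1
    · exact Or.inr ⟨x, by rw [evalEval_comp]; exact hx⟩

theorem t_APT : Pool.Agent.U610.PC.S_APT := by
  intro D hD M a hM B
  have hMq : (M : ℚ) ≠ 0 := by exact_mod_cast hM.ne'
  obtain ⟨m, hm, hm'⟩ := (thin_ap hD (M : ℚ) (a : ℚ) hMq).exists_int |B - a|
  have h0 : 0 ≤ |B - a| := abs_nonneg _
  have h1 : B - a ≤ |B - a| := le_abs_self _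
  refine ⟨a + M * m, ?_, ⟨m, by ring⟩, ?_⟩
  · have h2 : m ≤ (M : ℤ) * m := by
      have : (1 : ℤ) ≤ M := by exact_mod_cast hM
      nlinarith
    linarith
  · intro h
    apply hm'
    simpa using h

end Pool.Agent.U55.PC
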